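import Pool.Agent.helper74.NL.Spec

/-! # Project nl: module NZ: `a(c)` is not zero for a nonzero line field -/

set_option autoImplicit false

open Complex Metric Set Filter Topology MeasureTheory MPS Pool.Agent.helper98.ILF

noncomputable section

namespace NLF

theorem NZ (hJUL : JUL_stmt) (hCTB : CTB_stmt) (hCTH : CTH_stmt) (hMAXP : MAXP_stmt)
    (hCT0 : CT0_stmt) : NZ_stmt := by
  intro n c μ hn hLF hvol h0
  obtain ⟨-, -, hcont, hdecay⟩ := hCTB μ hLF.meas hLF.bd hLF.supp
  have hF : IsOpen (fatouSet (fun z : ℂ => z ^ n + c)) := isOpen_interior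
  have hJ : IsClosed (juliaSet (fun z : ℂ => z ^ n + c)) := hF.isClosed_compl
  have hzero : ∀ z ∈ (juliaSet (fun z : ℂ => z ^ n + c))ᶜ, μ z = 0 := by
    intro z hz
    by_contra h
    exact hz (hLF.julia z h)
  have hd := hCTH μ (juliaSet (fun z : ℂ => z ^ n + c))ᶜ hLF.meas hLF.bd hLF.supp hJ.isOpen_compl hzero
  have hall := hMAXP (CT μ) _ hcont hJ hdecay hd (hJUL n c μ hn hLF h0)
  have hae := hCT0 μ hLF.meas hLF.bd hLF.supp hall
  rw [ae_iff] at hae
  exact hvol.ne' hae

end NLF
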