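import Pool.Agent.helper74.NL.Spec

/-! # Project nl: module REL: the functional equation of the Cauchy transform -/

set_option autoImplicit false

open Complex Metric Set Filter Topology MeasureTheory MPS Pool.Agent.helper98.ILF

noncomputable section

namespace NLF

theorem REL_rt (n : ℕ) (hn : 2 ≤ n) (z : ℂ) : rt n z ^ n = z := by
  unfold rt
  rw [one_div]
  exact Complex.cpow_nat_inv_pow z (by omega)

theorem REL (hIP : IP_stmt) (hCTB : CTB_stmt) (hT1 : T1_stmt) : REL_stmt := by
  intro n c μ hn hLF b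
  obtain ⟨hint, -, -, -⟩ := hCTB μ hLF.meas hLF.bd hLF.supp
  by_cases hb : b = 0
  · subst hb
    have h1 : fd n (0 : ℂ) = 0 := by
      unfold fd
      rw [zero_pow (by omega), mul_zero]
    rw [h1, zero_pow (by omega), zero_add, zero_mul, sub_self]
  have hfd : fd n b ≠ 0 := by
    unfold fd
    have : (n : ℂ) ≠ 0 := by exact_mod_cast (by omega : n ≠ 0)
    exact mul_ne_zero this (pow_ne_zero _ hb)
  have hset : {y : ℂ | y ^ n + c ∈ (univ : Set ℂ)} = univ := by
    ext y
    simp
  have hI : (fun y => μ y * (1 / (y - b))) = fun y => μ y / (y - b) := by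
    funext y
    rw [mul_one_div]
  obtain ⟨-, h2⟩ := hIP n c μ hn hLF (fun z => 1 / (z - b)) univ (by fun_prop)
    MeasurableSet.univ (by
      rw [hset, integrableOn_univ, hI]
      exact hint b)
  rw [hset, setIntegral_univ, setIntegral_univ, hI] at h2
  have h3 : (fun z => μ z * TQ n c (fun z => 1 / (z - b)) z) =ᵐ[volume]
      fun z => (1 / fd n b) * (μ z / (z - (b ^ n + c)) - μ z / (z - c)) := by
    have hne : ∀ a : ℂ, ∀ᵐ z : ℂ, z ≠ a := by
      intro a
      rw [ae_iff]
      simp
    filter_upwards [hne c, hne (b ^ n + c)] with z hz1 hz2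
    have h4 : rt n (z - c) ^ n = z - c := REL_rt n hn _
    have h5 : rt n (z - c) ≠ 0 := by
      intro h0
      rw [h0, zero_pow (by omega)] at h4
      exact hz1 (sub_eq_zero.mp h4.symm)
    have h6 : rt n (z - c) ^ n ≠ b ^ n := by
      rw [h4]
      intro h0
      exact hz2 (by rw [← h0]; ring)
    have h7 := hT1 n (rt n (z - c)) b hn h5 hb h6
    show μ z * TQ n c (fun z => 1 / (z - b)) z = _
    unfold TQ
    rw [h7, h4, show z - c - b ^ n = z - (b ^ n + c) by ring]
    ring
  rw [integral_congr_ae h3, integral_const_mul,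
    integral_sub (hint (b ^ n + c)) (hint c)] at h2
  have h8 : CT μ b = (1 / fd n b) * (CT μ (b ^ n + c) - CT μ c) := h2.symm
  rw [h8]
  field_simp

end NLF
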